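import Pool.Agent.K7.H22.LW.Stm
import Pool.Agent.H341R2.WeilSharp

set_option autoImplicit false

/-! # Job T: the Weil bound for sums of polynomials in consecutive Legendre symbols -/

open Finset

namespace Pool.Agent.K7.H22.LW

namespace JT

/-- the positions of odd multiplicity -/
def odds (l : List ℕ) : Finset ℕ := l.toFinset.filter fun u => Odd (l.count u)

theorem prod_sign (l : List ℕ) (b : ℕ → ℝ) (hb : ∀ u ∈ l, b u = 1 ∨ b u = -1) :
    (l.map b).prod = ∏ u ∈ odds l, b u := by
  rw [Finset.prod_list_map_count, odds, Finset.prod_filter]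
  refine Finset.prod_congr rfl fun u hu => ?_
  rw [List.mem_toFinset] at hu
  split_ifs with h
  · rcases hb u hu with h1 | h1 <;> rw [h1]
    · simp
    · exact h.neg_one_pow
  · rw [Nat.not_odd_iff_even] at h
    rcases hb u hu with h1 | h1 <;> rw [h1]
    · simp
    · exact h.neg_one_pow

theorem odds_sub (l : List ℕ) : odds l ⊆ l.toFinset := Finset.filter_subset _ _

theorem card_toFinset_le (l : List ℕ) : l.toFinset.card ≤ l.length := List.toFinset_card_le l

theorem sg_sign {N : ℕ} (s : Fin N → Bool) (u : ℕ) : sg s u = 1 ∨ sg s u = -1 := by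
  unfold sg
  split_ifs <;> simp

theorem E_empty (N : ℕ) (l : List ℕ) (h : odds l = ∅) :
    E N (fun b => (l.map b).prod) = 1 := by
  unfold E
  have : ∀ s : Fin N → Bool, (l.map (sg s)).prod = 1 := by
    intro s
    rw [prod_sign l (sg s) (fun u _ => sg_sign s u), h, Finset.prod_empty]
  simp only [this, Finset.sum_const, Finset.card_univ, Fintype.card_pi, Fintype.card_bool,
    Finset.prod_const, Fintype.card_fin, nsmul_eq_mul, mul_one]
  push_cast
  exact div_self (by positivity)

theorem E_nonempty (N : ℕ) (l : List ℕ) (hl : ∀ u ∈ l, u < N) (h : (odds l).Nonempty) :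
    E N (fun b => (l.map b).prod) = 0 := by
  obtain ⟨u0, hu0⟩ := h
  have hu0N : u0 < N := hl u0 (List.mem_toFinset.1 (odds_sub l hu0))
  unfold E
  rw [div_eq_zero_iff]
  left
  let fl : (Fin N → Bool) → (Fin N → Bool) := fun s => Function.update s ⟨u0, hu0N⟩ (!s ⟨u0, hu0N⟩)
  have hfl0 : ∀ s, sg (fl s) u0 = - sg s u0 := by
    intro s
    simp only [sg, hu0N, fl, dif_pos, Function.update_self]
    cases s ⟨u0, hu0N⟩ <;> simp
  have hfl1 : ∀ s u, u ≠ u0 → sg (fl s) u = sg s u := by
    intro s u hu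
    simp only [sg]
    split_ifs with h1 h2 h3 h3
    · rfl
    · exfalso
      apply h3
      rw [← h2]
      simp only [fl]
      rw [Function.update_of_ne]
      intro h4
      exact hu (Fin.mk.inj_iff.1 h4)
    · exfalso
      apply h2
      rw [← h3]
      simp only [fl]
      rw [Function.update_of_ne]
      intro h4
      exact hu (Fin.mk.inj_iff.1 h4)
    · rfl
    · rfl
  have hprod : ∀ s, ((l.map (sg (fl s))).prod : ℝ) = - (l.map (sg s)).prod := by
    intro s
    rw [prod_sign l (sg s) (fun u _ => sg_sign s u), prod_sign l (sg (fl s)) (fun u _ => sg_sign _ u),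
      ← Finset.mul_prod_erase _ _ hu0, ← Finset.mul_prod_erase _ _ hu0, hfl0, neg_mul]
    congr 2
    refine Finset.prod_congr rfl fun u hu => hfl1 s u (Finset.ne_of_mem_erase hu)
  have hinv : Function.Involutive fl := by
    intro s
    funext i
    by_cases hi : i = ⟨u0, hu0N⟩
    · subst hi
      simp [fl]
    · simp [fl, Function.update_of_ne hi]
  have h1 : ∑ s : Fin N → Bool, ((l.map (sg s)).prod : ℝ) =
      ∑ s : Fin N → Bool, ((l.map (sg (fl s))).prod : ℝ) :=
    (Equiv.sum_comp (hinv.toPerm fl) (fun s => ((l.map (sg s)).prod : ℝ))).symm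
  have h2 : ∑ s : Fin N → Bool, ((l.map (sg (fl s))).prod : ℝ) =
      - ∑ s : Fin N → Bool, ((l.map (sg s)).prod : ℝ) := by
    rw [← Finset.sum_neg_distrib]
    exact Finset.sum_congr rfl fun s _ => hprod s
  linarith

section weil

variable (p : ℕ) [Fact p.Prime]

/-- the value of the symbol as a real number -/
noncomputable def ch (x : ZMod p) (j : ℕ) : ℝ := (quadraticChar (ZMod p) (x + (j : ℕ)) : ℝ)

theorem cast_inj {a b : ℕ} (ha : a < p) (hb : b < p) (h : (a : ZMod p) = b) : a = b := by
  rw [ZMod.natCast_eq_natCast_iff'] at h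
  rwa [Nat.mod_eq_of_lt ha, Nat.mod_eq_of_lt hb] at h

open Polynomial in
theorem weil_prod (hp : p ≠ 2) (T : Finset ℕ) (hT : T.Nonempty) (hTp : ∀ u ∈ T, u < p) :
    |∑ x : ZMod p, ∏ u ∈ T, ch p x u| ≤ (T.card - 1) * Real.sqrt p := by
  classical
  set P : (ZMod p)[X] := ∏ u ∈ T, (X - C (-(u : ZMod p))) with hP
  have hdeg : P.natDegree = T.card := by
    rw [hP, natDegree_prod_of_monic _ _ fun u _ => monic_X_sub_C _]
    simp only [natDegree_X_sub_C, Finset.sum_const, smul_eq_mul, mul_one]
  have hcard : 1 ≤ T.card := hT.card_pos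
  have hsep : P.Separable := by
    rw [hP, separable_prod_X_sub_C_iff']
    intro a ha b hb hab
    exact cast_inj p (hTp a ha) (hTp b hb) (neg_injective hab)
  have hns : ∀ (c : ZMod p) (h : (ZMod p)[X]), P ≠ C c * h ^ 2 := by
    intro c h hc
    have h1 : h * h ∣ P := ⟨C c, by rw [hc]; ring⟩
    have h2 : IsUnit h := hsep.squarefree h h1
    have h3 : h.natDegree = 0 := natDegree_eq_zero_of_isUnit h2
    have h4 : P.natDegree = 0 := by
      rw [hc]
      refine le_antisymm ((natDegree_C_mul_le _ _).trans ?_) (Nat.zero_le _)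
      refine natDegree_pow_le.trans ?_
      rw [h3]
    omega
  have hF : ringChar (ZMod p) ≠ 2 := by
    rw [ZMod.ringChar_zmod_n]
    exact hp
  have key := Pool.Agent.H341R2.Sharp.weil_sharp hF P (by rw [hdeg]; exact hcard) hns
  rw [hdeg, ZMod.card] at key
  have h5 : ∀ x : ZMod p, ((quadraticChar (ZMod p) (P.eval x) : ℤ) : ℝ) = ∏ u ∈ T, ch p x u := by
    intro x
    rw [hP, eval_prod, map_prod]
    push_cast
    refine Finset.prod_congr rfl fun u _ => ?_
    rw [ch, eval_sub, eval_X, eval_C, sub_neg_eq_add]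
  simp only [h5] at key
  exact key

theorem ch_sign (x : ZMod p) (u : ℕ) (h : x + (u : ZMod p) ≠ 0) : ch p x u = 1 ∨ ch p x u = -1 := by
  unfold ch
  rcases quadraticChar_dichotomy h with h1 | h1 <;> rw [h1] <;> simp

theorem ch_zero (x : ZMod p) (u : ℕ) (h : x + (u : ZMod p) = 0) : ch p x u = 0 := by
  unfold ch
  rw [h]
  simp

theorem ch_abs (x : ZMod p) (u : ℕ) : |ch p x u| ≤ 1 := by
  by_cases h : x + (u : ZMod p) = 0
  · rw [ch_zero p x u h]; simp
  · rcases ch_sign p x u h with h1 | h1 <;> rw [h1] <;> simp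

theorem diff_bound (l : List ℕ) :
    |∑ x : ZMod p, ((l.map (ch p x)).prod - ∏ u ∈ odds l, ch p x u)| ≤ l.length := by
  classical
  have h1 : ∀ x : ZMod p, |(l.map (ch p x)).prod - ∏ u ∈ odds l, ch p x u| ≤
      ∑ u ∈ l.toFinset, if x = -(u : ZMod p) then (1 : ℝ) else 0 := by
    intro x
    by_cases h : ∃ u ∈ l, x + (u : ZMod p) = 0
    · obtain ⟨u, hu, hx⟩ := h
      have h2 : (l.map (ch p x)).prod = 0 := by
        apply List.prod_eq_zero
        rw [List.mem_map]
        exact ⟨u, hu, ch_zero p x u hx⟩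
      rw [h2, zero_sub, abs_neg, Finset.abs_prod]
      have h3 : ∏ u ∈ odds l, |ch p x u| ≤ 1 :=
        Finset.prod_le_one (fun _ _ => abs_nonneg _) fun u _ => ch_abs p x u
      refine h3.trans ?_
      have h4 : (if x = -(u : ZMod p) then (1 : ℝ) else 0) ≤
          ∑ u ∈ l.toFinset, if x = -(u : ZMod p) then (1 : ℝ) else 0 :=
        Finset.single_le_sum (f := fun u : ℕ => if x = -(u : ZMod p) then (1 : ℝ) else 0)
          (fun i _ => by split_ifs <;> norm_num) (List.mem_toFinset.2 hu)
      refine le_trans ?_ h4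
      rw [if_pos (eq_neg_of_add_eq_zero_left hx)]
    · push Not at h
      rw [prod_sign l (ch p x) (fun u hu => ch_sign p x u (h u hu)), sub_self, abs_zero]
      exact Finset.sum_nonneg fun i _ => by split_ifs <;> norm_num
  refine (Finset.abs_sum_le_sum_abs _ _).trans ((Finset.sum_le_sum fun x _ => h1 x).trans ?_)
  rw [Finset.sum_comm]
  have h5 : ∀ u : ℕ, ∑ x : ZMod p, (if x = -(u : ZMod p) then (1 : ℝ) else 0) = 1 := by
    intro u
    rw [Finset.sum_ite_eq' Finset.univ (-(u : ZMod p)) (fun _ => (1 : ℝ))]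
    simp
  simp only [h5, Finset.sum_const, nsmul_eq_mul, mul_one]
  exact_mod_cast card_toFinset_le l

theorem mono_bound (hp : p ≠ 2) (N d : ℕ) (hN : N ≤ p) (l : List ℕ) (hd : l.length ≤ d)
    (hl : ∀ u ∈ l, u < N) :
    |∑ x : ZMod p, (l.map (ch p x)).prod - p * E N (fun b => (l.map b).prod)| ≤
      d * (2 * Real.sqrt p) := by
  have hdiff := diff_bound p l
  rw [Finset.sum_sub_distrib] at hdiff
  have hs1 : 1 ≤ Real.sqrt p := by
    rw [Real.one_le_sqrt]
    exact_mod_cast (Fact.out : p.Prime).one_lt.le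
  have hd' : (l.length : ℝ) ≤ d := by exact_mod_cast hd
  have hl0 : (0 : ℝ) ≤ l.length := Nat.cast_nonneg _
  rcases (odds l).eq_empty_or_nonempty with h | h
  · rw [E_empty N l h, mul_one]
    rw [h] at hdiff
    simp only [Finset.prod_empty, Finset.sum_const, Finset.card_univ, ZMod.card, nsmul_eq_mul,
      mul_one] at hdiff
    refine hdiff.trans ?_
    nlinarith
  · rw [E_nonempty N l hl h, mul_zero, sub_zero]
    have h1 := weil_prod p hp (odds l) h fun u hu =>
      (hl u (List.mem_toFinset.1 (odds_sub l hu))).trans_le hN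
    have h2 : ((odds l).card : ℝ) ≤ l.length := by
      exact_mod_cast (Finset.card_le_card (odds_sub l)).trans (card_toFinset_le l)
    have h3 : |∑ x : ZMod p, (l.map (ch p x)).prod| ≤
        |∑ x : ZMod p, (l.map (ch p x)).prod - ∑ x : ZMod p, ∏ u ∈ odds l, ch p x u| +
          |∑ x : ZMod p, ∏ u ∈ odds l, ch p x u| := by
      have := abs_add_le (∑ x : ZMod p, (l.map (ch p x)).prod -
        ∑ x : ZMod p, ∏ u ∈ odds l, ch p x u) (∑ x : ZMod p, ∏ u ∈ odds l, ch p x u)
      rwa [sub_add_cancel] at this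
    refine h3.trans ((add_le_add hdiff h1).trans ?_)
    nlinarith

/-- the defect of a function of the signs -/
noncomputable def D (N : ℕ) (f : (ℕ → ℝ) → ℝ) : ℝ := ∑ x : ZMod p, f (ch p x) - p * E N f

theorem D_cons (N : ℕ) (c : ℝ) (g f : (ℕ → ℝ) → ℝ) :
    D p N (fun b => c * g b + f b) = c * D p N g + D p N f := by
  have hE : E N (fun b => c * g b + f b) = c * E N g + E N f := by
    unfold E
    rw [Finset.sum_add_distrib, ← Finset.mul_sum, add_div, mul_div_assoc]
  unfold D
  rw [hE, Finset.sum_add_distrib, ← Finset.mul_sum]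
  ring

theorem list_bound (hp : p ≠ 2) (N d : ℕ) (hN : N ≤ p) (L : List (ℝ × List ℕ))
    (hL : ∀ t ∈ L, t.2.length ≤ d ∧ ∀ u ∈ t.2, u < N) :
    |D p N (fun b => (L.map fun t => t.1 * (t.2.map b).prod).sum)| ≤
      (L.map fun t => |t.1|).sum * (d * (2 * Real.sqrt p)) := by
  induction L with
  | nil => simp [D, E]
  | cons t L ih =>
    have h1 : (fun b : ℕ → ℝ => ((t :: L).map fun t => t.1 * (t.2.map b).prod).sum) =
        fun b => t.1 * (t.2.map b).prod + (L.map fun t => t.1 * (t.2.map b).prod).sum := by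
      funext b
      simp
    rw [h1, D_cons p N t.1 (fun b => (t.2.map b).prod)]
    rw [List.map_cons, List.sum_cons, add_mul]
    refine (abs_add_le _ _).trans (add_le_add ?_ (ih fun t' ht' => hL t' (List.mem_cons_of_mem _ ht')))
    rw [abs_mul]
    refine mul_le_mul_of_nonneg_left ?_ (abs_nonneg _)
    exact mono_bound p hp N d hN t.2 (hL t List.mem_cons_self).1 (hL t List.mem_cons_self).2

end weil

end JT

/-- Job T -/
theorem t_holds : StT := by
  intro p _ hp N d C f hN hf
  obtain ⟨L, hL, hC, hfL⟩ := hf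
  have h1 : f = fun b => (L.map fun t => t.1 * (t.2.map b).prod).sum := funext hfL
  have h2 := JT.list_bound p hp N d hN L hL
  rw [← h1] at h2
  have h3 : (L.map fun t => |t.1|).sum * (d * (2 * Real.sqrt p)) ≤ C * d * (2 * Real.sqrt p) := by
    rw [mul_assoc C]
    exact mul_le_mul_of_nonneg_right hC (by positivity)
  exact h2.trans h3

end Pool.Agent.K7.H22.LW
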